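import Pool.Agent.H.MP_b0f4c2_gt.Main

namespace Pool.Agent.Results.MP_b0f4c2_gt.No

open Set Filter Topology
open scoped ContDiff RealInnerProductSpace

variable {V : Type} [NormedAddCommGroup V] [InnerProductSpace ℝ V]

def tang (A : Set V) (b : V) : Set V :=
  {v | ∃ c : ℝ → V, c 0 = b ∧ (∀ᶠ s in 𝓝 0, c s ∈ A) ∧ HasDerivAt c v 0}

def IsGeo (N : Set V) (γ : ℝ → V) : Prop :=
  ContDiff ℝ ∞ γ ∧ ∀ t, γ t ∈ N ∧ ∀ v ∈ tang N (γ t), ⟪deriv (deriv γ) t, v⟫ = 0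

def LapEq {F : Type} [NormedAddCommGroup F] [NormedSpace ℝ F] (d : ℕ) (M : Set V)
    (f g : V → F) : Prop :=
  ∀ p ∈ M, ∃ c : Fin d → ℝ → V, (∀ i, IsGeo M (c i) ∧ c i 0 = p) ∧
    Orthonormal ℝ (fun i => deriv (c i) 0) ∧
    - ∑ i, deriv (deriv (fun t => f (c i t))) 0 = g p

theorem result : ∃ (n d : ℕ) (M : Set (EuclideanSpace ℝ (Fin (n + 2))))
    (F : EuclideanSpace ℝ (Fin (n + 2)) → Fin (n + 2 - d) → ℝ),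
    2 / 3 * (n : ℝ) + 1 ≤ d ∧ d ≤ n ∧ ContDiff ℝ ∞ F ∧ M = F ⁻¹' {0} ∧
    (∀ x ∈ M, Function.Surjective (fderiv ℝ F x)) ∧
    IsCompact M ∧ IsConnected M ∧ M ⊆ Metric.sphere 0 1 ∧
    LapEq d M (fun x => x) (fun x => (d : ℝ) • x) ∧
    ∃ (f : EuclideanSpace ℝ (Fin (n + 2)) → ℝ) (l : ℝ), ContDiff ℝ ∞ f ∧ (∃ x ∈ M, f x ≠ 0) ∧
      0 < l ∧ l < d ∧ LapEq d M f (fun x => l * f x) :=
  Pool.Agent.H.MP_b0f4c2_gt.main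

end Pool.Agent.Results.MP_b0f4c2_gt.No
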